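import Mathlib
import Pool.Agent.TH278.DX.Defs3
set_option autoImplicit false

open Pool.Agent.TH278.DX

namespace Pool.Agent.TH403.J5174

section lam
variable {Q : Type} [Group Q] [Fintype Q]

/-- left translation -/
noncomputable def lam (g : Q) : EuclideanSpace ℂ Q ≃ₗᵢ[ℂ] EuclideanSpace ℂ Q :=
  LinearIsometryEquiv.piLpCongrLeft 2 ℂ ℂ (Equiv.mulLeft g)

theorem lam_apply (g : Q) (ψ : EuclideanSpace ℂ Q) (x : Q) : lam g ψ x = ψ (g⁻¹ * x) := by
  unfold lam
  rw [LinearIsometryEquiv.piLpCongrLeft_apply]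
  rfl

end lam

theorem sum_proj {Q : Type} [Fintype Q] [DecidableEq Q] (N : Submodule ℂ (EuclideanSpace ℂ Q)) :
    ∑ b : Q, ‖N.starProjection (EuclideanSpace.single b (1 : ℂ))‖ ^ 2 = Module.finrank ℂ N := by
  set u := stdOrthonormalBasis ℂ N with hu
  have h1 : ∀ x : EuclideanSpace ℂ Q, ‖N.starProjection x‖ ^ 2 =
      ∑ c, ‖inner ℂ ((u c : N) : EuclideanSpace ℂ Q) x‖ ^ 2 := by
    intro x
    have h2 : ‖N.starProjection x‖ = ‖N.orthogonalProjectionOnto x‖ := rfl
    rw [h2, ← u.sum_sq_norm_inner_right (N.orthogonalProjectionOnto x)]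
    refine Finset.sum_congr rfl fun c _ => ?_
    congr 2
    rw [Submodule.inner_orthogonalProjectionOnto_eq_of_mem_left]
  simp_rw [h1]
  rw [Finset.sum_comm]
  have h3 : ∀ c, ∑ b : Q, ‖inner ℂ ((u c : N) : EuclideanSpace ℂ Q)
      (EuclideanSpace.single b (1 : ℂ))‖ ^ 2 = 1 := by
    intro c
    have h4 : ‖((u c : N) : EuclideanSpace ℂ Q)‖ = 1 := u.orthonormal.1 c
    have h5 := EuclideanSpace.norm_sq_eq ((u c : N) : EuclideanSpace ℂ Q)
    rw [h4] at h5
    rw [one_pow] at h5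
    rw [h5]
    refine Finset.sum_congr rfl fun b _ => ?_
    rw [EuclideanSpace.inner_single_right, one_mul, RCLike.norm_conj]
  rw [Finset.sum_congr rfl fun c _ => h3 c]
  simp

theorem exists_p (A ε : ℝ) (hA : 0 ≤ A) (hε : 0 < ε) : ∃ p : ℕ, A * (2 / 3) ^ (2 * p) ≤ ε := by
  obtain ⟨p, hp⟩ := exists_pow_lt_of_lt_one (div_pos hε (by linarith : 0 < A + 1))
    (by norm_num : (2 / 3 : ℝ) < 1)
  refine ⟨p, ?_⟩
  have h1 : ((2 : ℝ) / 3) ^ (2 * p) ≤ (2 / 3) ^ p :=
    pow_le_pow_of_le_one (by norm_num) (by norm_num) (by omega)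
  have h2 : ((2 : ℝ) / 3) ^ (2 * p) ≤ ε / (A + 1) := h1.trans hp.le
  calc A * (2 / 3) ^ (2 * p) ≤ A * (ε / (A + 1)) := mul_le_mul_of_nonneg_left h2 hA
    _ ≤ ε := by
      rw [mul_div_assoc', div_le_iff₀ (by linarith)]
      nlinarith

section op
variable {ι K Q : Type} [Fintype ι] [Fintype K] [Group Q] [Fintype Q]

/-- the operator of the coefficients `a` -/
noncomputable def opS (q : ι → Q) (a : ι → K → K → ℂ) :
    EuclideanSpace ℂ (Q × K) →L[ℂ] EuclideanSpace ℂ (Q × K) :=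
  LinearMap.toContinuousLinearMap
    { toFun := fun φ => WithLp.toLp 2 fun y => ∑ i, ∑ l, a i y.2 l * φ ((q i)⁻¹ * y.1, l)
      map_add' := by
        intro φ ψ
        ext y
        simp only [PiLp.add_apply, mul_add, Finset.sum_add_distrib]
      map_smul' := by
        intro c φ
        ext y
        simp only [PiLp.smul_apply, smul_eq_mul, RingHom.id_apply, Finset.mul_sum]
        refine Finset.sum_congr rfl fun i _ => Finset.sum_congr rfl fun l _ => ?_
        ring }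

theorem opS_apply (q : ι → Q) (a : ι → K → K → ℂ) (φ : EuclideanSpace ℂ (Q × K)) (x : Q) (k : K) :
    opS q a φ (x, k) = ∑ i, ∑ l, a i k l * φ ((q i)⁻¹ * x, l) := rfl

end op

theorem khintchine (hg : GirthProp) (hm : MomentProp) (hc : CutProp) : KhintchineProp := by
  classical
  intro ι K J _ _ _ a r ε hr hε h1 h2
  obtain ⟨p, hp⟩ := exists_p (Fintype.card J * Fintype.card K ^ 2) ε (by positivity) hε
  obtain ⟨Q, iG, iF, q, hq⟩ := hg ι (2 * p)
  have hb : ∀ j y, (inner ℂ (((ContinuousLinearMap.adjoint (opS q (a j)) * opS q (a j)) ^ p)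
      (EuclideanSpace.single y 1)) (EuclideanSpace.single y (1 : ℂ))).re ≤ (2 * r) ^ (2 * p) :=
    fun j y => hm ι K Q q p hq (a j) r hr.le (h1 j) (h2 j) (opS q (a j))
      (fun φ x k => opS_apply q (a j) φ x k) y
  obtain ⟨M, hM, hcut⟩ := hc J K Q (fun j => opS q (a j)) p r hr hb
  refine ⟨Q, iF, inferInstance, inferInstance, fun i =>
    ((lam (q i)).toContinuousLinearEquiv : EuclideanSpace ℂ Q →L[ℂ] EuclideanSpace ℂ Q) ∘L
      Mᗮ.starProjection, ?_, ?_, ?_⟩
  · intro i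
    refine ContinuousLinearMap.opNorm_le_bound _ zero_le_one fun x => ?_
    rw [one_mul]
    change ‖lam (q i) (Mᗮ.starProjection x)‖ ≤ ‖x‖
    rw [LinearIsometryEquiv.norm_map]
    exact Mᗮ.norm_starProjection_apply_le x
  · intro i
    have h3 : ∑ b : Q, ‖(((lam (q i)).toContinuousLinearEquiv :
        EuclideanSpace ℂ Q →L[ℂ] EuclideanSpace ℂ Q) ∘L Mᗮ.starProjection)
          (EuclideanSpace.single b 1)‖ ^ 2 = Module.finrank ℂ Mᗮ := by
      rw [← sum_proj Mᗮ]
      refine Finset.sum_congr rfl fun b _ => ?_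
      congr 1
      change ‖lam (q i) (Mᗮ.starProjection (EuclideanSpace.single b 1))‖ = _
      rw [LinearIsometryEquiv.norm_map]
    rw [h3]
    have h4 : Module.finrank ℂ M + Module.finrank ℂ Mᗮ = Fintype.card Q := by
      rw [Submodule.finrank_add_finrank_orthogonal, finrank_euclideanSpace]
    have h5 : (Module.finrank ℂ M : ℝ) + Module.finrank ℂ Mᗮ = Fintype.card Q := by
      exact_mod_cast h4
    have h6 : (Module.finrank ℂ M : ℝ) ≤ ε * Fintype.card Q :=
      hM.trans (mul_le_mul_of_nonneg_right hp (by positivity))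
    linarith
  · intro j φ
    set Φ : EuclideanSpace ℂ (Q × K) := WithLp.toLp 2 fun y => Mᗮ.starProjection (φ y.2) y.1
      with hΦ
    have h3 : ∀ l, (WithLp.toLp 2 fun x => Φ (x, l) : EuclideanSpace ℂ Q) =
        Mᗮ.starProjection (φ l) := by
      intro l
      ext x
      rfl
    have h4 := hcut j Φ fun l => by
      rw [h3]
      exact Submodule.starProjection_apply_mem _ _
    have h5 : ∑ k, ‖∑ i, ∑ l, a j i k l • (((lam (q i)).toContinuousLinearEquiv :
        EuclideanSpace ℂ Q →L[ℂ] EuclideanSpace ℂ Q) ∘L Mᗮ.starProjection) (φ l)‖ ^ 2 =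
        ‖opS q (a j) Φ‖ ^ 2 := by
      rw [EuclideanSpace.norm_sq_eq, Fintype.sum_prod_type_right]
      refine Finset.sum_congr rfl fun k _ => ?_
      rw [EuclideanSpace.norm_sq_eq]
      refine Finset.sum_congr rfl fun x _ => ?_
      congr 2
      rw [opS_apply]
      simp only [WithLp.ofLp_sum, Finset.sum_apply, WithLp.ofLp_smul, Pi.smul_apply, smul_eq_mul]
      refine Finset.sum_congr rfl fun i _ => Finset.sum_congr rfl fun l _ => ?_
      congr 1
    have h6 : ‖Φ‖ ^ 2 ≤ ∑ l, ‖φ l‖ ^ 2 := by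
      rw [EuclideanSpace.norm_sq_eq, Fintype.sum_prod_type_right]
      refine Finset.sum_le_sum fun l _ => ?_
      have h7 := EuclideanSpace.norm_sq_eq (Mᗮ.starProjection (φ l))
      have h8 : ∑ x, ‖Φ (x, l)‖ ^ 2 = ‖Mᗮ.starProjection (φ l)‖ ^ 2 := by
        rw [h7]
      rw [h8]
      exact pow_le_pow_left₀ (norm_nonneg _) (Mᗮ.norm_starProjection_apply_le _) 2
    rw [h5]
    calc ‖opS q (a j) Φ‖ ^ 2 ≤ (3 * r * ‖Φ‖) ^ 2 := pow_le_pow_left₀ (norm_nonneg _) h4 2
      _ = (3 * r) ^ 2 * ‖Φ‖ ^ 2 := by ring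
      _ ≤ (3 * r) ^ 2 * ∑ l, ‖φ l‖ ^ 2 := mul_le_mul_of_nonneg_left h6 (by positivity)

end Pool.Agent.TH403.J5174
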